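import Pool.Agent.H31C.Defs

/-!
Room CARDY: the interfaces between the blocks (exact Props; nothing is proved here).
-/

namespace Pool.Agent.H31C

open Pool.Agent.H988R2.Perc Finset Filter Topology

/-- BLOCK A2 (helper492): the glued vectors at the homogeneous point, one variable left. -/
def S_A2 : Prop := ∀ a b : ℕ, Odd a → Odd b → ∃ p t : Polynomial ℂ, OneVar a b p t ∧
  (∀ W : ℂ, GR (on a) W (on b) = p.eval W) ∧ (∀ W : ℂ, TT (on a) W (on b) = t.eval W)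

/-- BLOCK ONEVAR (helper136) + B3 (helper28, 337, 820): the value at `W = 1`. -/
def S_ONE : Prop := ∀ (a b : ℕ) (p t : Polynomial ℂ), Odd a → Odd b → OneVar a b p t →
  p.eval 1 = ((∑ k ∈ range (a+1), bw (a+b+1) k : ℝ) : ℂ) * t.eval 1

/-- BLOCK C (helper988, helper980): percolation link. -/
def S_C : Prop := ∀ a b : ℕ, Odd a → Odd b →
  (perc.real (Cross a b) : ℂ) * TT (on a) 1 (on b) = GR (on a) 1 (on b)

/-- BLOCK T (easy, from `Z_ones_zero`). -/
def S_T : Prop := ∀ a b : ℕ, Odd a → Odd b → TT (on a) 1 (on b) ≠ 0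

/-- the exact discrete Cardy formula -/
def S_Exact : Prop := ∀ a b : ℕ, Odd a → Odd b →
  perc.real (Cross a b) = ∑ k ∈ range (a+1), bw (a+b+1) k

/-- BLOCK D (helper757 / helper731): the limit law. -/
def S_D : Prop := ∀ (a b : ℕ → ℕ) (x : ℝ), x ∈ Set.Icc (0:ℝ) 1 →
  Tendsto (fun n => (a n : ℝ) + b n) atTop atTop →
  Tendsto (fun n => (a n : ℝ) / (a n + b n)) atTop (𝓝 x) →
  Tendsto (fun n => ∑ k ∈ range (a n + 1), bw (a n + b n + 1) k) atTop
    (𝓝 ((∫ t in (0:ℝ)..x, (t*(1-t))^(-(2:ℝ)/3)) / ∫ t in (0:ℝ)..1, (t*(1-t))^(-(2:ℝ)/3)))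

theorem exact_of (hA : S_A2) (hO : S_ONE) (hC : S_C) (hT : S_T) : S_Exact := by
  intro a b ha hb
  obtain ⟨p, t, h, hp, ht⟩ := hA a b ha hb
  have h1 := hO a b p t ha hb h
  have h2 := hC a b ha hb
  rw [hp 1, h1, ← ht 1] at h2
  have h3 := mul_right_cancel₀ (hT a b ha hb) h2
  exact_mod_cast h3

end Pool.Agent.H31C
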