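import Pool.Agent.H31C.Defs
import Pool.Agent.H492C.Defs
import Pool.Agent.H988R2.Perc.T13

/-! Bridge between the gluing functionals of `H492C` and `H31C`. -/

namespace Pool.Agent.H31C

open Pool.Agent.H988R2.Perc Finset

theorem eqvGen_mono_gen {α : Type*} {E F : α → α → Prop}
    (key : ∀ x y, E x y → Relation.EqvGen F x y) {x y : α}
    (h : Relation.EqvGen E x y) : Relation.EqvGen F x y := by
  induction h with
  | rel x y h => exact key x y h
  | refl x => exact Relation.EqvGen.refl _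
  | symm x y _ ih => exact ih.symm
  | trans x y z _ _ i1 i2 => exact i1.trans _ _ _ i2

theorem jn_comb_iff (a b k : ℕ) (ha : a + 1 = 2*k) (R R1 R2 : St)
    (h1 : ∀ x y, R1.rel x y → x = y ∨ (x < a + 1 ∧ y < a + 1)) :
    H492C.jn a (a+1+b) R (H492C.comb k R1 R2) ↔ conn3 a b R R1 R2 := by
  unfold H492C.jn conn3
  have e : a + 1 + b = a + b + 1 := by omega
  rw [e]
  constructor
  · refine eqvGen_mono_gen ?_
    rintro x y (h | h | ⟨h, h', h''⟩ | ⟨h, h', h''⟩)
    · exact Relation.EqvGen.rel _ _ (Or.inl h)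
    · subst h; exact Relation.EqvGen.refl _
    · exact Relation.EqvGen.rel _ _ (Or.inr (Or.inl h''))
    · exact Relation.EqvGen.rel _ _ (Or.inr (Or.inr ⟨x - 2*k, y - 2*k, by omega, by omega, h''⟩))
  · refine eqvGen_mono_gen ?_
    rintro x y (h | h | ⟨x', y', rfl, rfl, h⟩)
    · exact Relation.EqvGen.rel _ _ (Or.inl h)
    · rcases h1 x y h with h2 | ⟨h2, h3⟩
      · subst h2; exact Relation.EqvGen.refl _
      · exact Relation.EqvGen.rel _ _ (Or.inr (Or.inr (Or.inl ⟨by omega, by omega, h⟩)))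
    · refine Relation.EqvGen.rel _ _ (Or.inr (Or.inr (Or.inr ⟨by omega, by omega, ?_⟩)))
      have e1 : a + 1 + x' - 2*k = x' := by omega
      have e2 : a + 1 + y' - 2*k = y' := by omega
      rw [e1, e2]; exact h

theorem GR_eq492 (A B : List ℂ) (w : ℂ) (hA : Odd A.length) :
    H492C.GR A w B = GR A w B := by
  classical
  have hinv : ∀ l : List ℂ, inv l = l.map (fun x => x⁻¹) := fun _ => rfl
  unfold H492C.GR GR tri H492C.pairG H492C.comb2 H492C.up1
  obtain ⟨m, hm⟩ := hA
  refine Finsupp.sum_congr fun R _ => ?_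
  rw [← hinv, ← hinv]
  set g := Psi (inv A ++ [0]) with hg
  set h := Psi (inv B ++ [0]) with hh
  let Φ : St → ℂ → ℂ := fun R' b =>
    (Psi (A ++ w :: (B ++ [0]))) R * b *
      (if H492C.jn A.length (A.length + 1 + B.length) R R' then 1 else 0)
  have h0 : ∀ R', Φ R' 0 = 0 := by intro R'; simp [Φ]
  have hadd : ∀ R' b c, Φ R' (b + c) = Φ R' b + Φ R' c := by intro R' b c; simp only [Φ]; ring
  show (g.sum fun R1 y => h.sum fun R2 z =>
    Finsupp.single (H492C.comb ((A.length + 1)/2) R1 R2) (y * z)).sum Φ = _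
  rw [Finsupp.sum_sum_index h0 hadd]
  refine Finsupp.sum_congr fun R1 hR1 => ?_
  rw [Finsupp.sum_sum_index h0 hadd]
  refine Finsupp.sum_congr fun R2 _ => ?_
  rw [Finsupp.sum_single_index (h0 _)]
  have hs : ∀ x y, R1.rel x y → x = y ∨ (x < A.length + 1 ∧ y < A.length + 1) := by
    intro x y hxy
    have := Psi_supp (inv A ++ [0]) (by rw [hinv]; simp; rw [hm]; exact ⟨m+1, by ring⟩) R1 hR1 x y hxy
    simpa [hinv] using this
  have hk : A.length + 1 = 2 * ((A.length + 1)/2) := by omega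
  have hiff := jn_comb_iff A.length B.length _ hk R R1 R2 hs
  simp only [Φ]
  by_cases hc : conn3 A.length B.length R R1 R2
  · rw [if_pos hc, if_pos (hiff.2 hc)]; ring
  · rw [if_neg hc, if_neg (fun h => hc (hiff.1 h))]; ring

theorem TT_eq492 (A B : List ℂ) (w : ℂ) : H492C.TT A w B = TT A w B := by
  unfold H492C.TT TT inv; ring

end Pool.Agent.H31C
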