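import Pool.Agent.H31C.Stubs
import Pool.Agent.H31C.B492
import Pool.Agent.H136R2.Cardy.Defs

/-! Room CARDY: interfaces with helper136's `Data` (final form). -/

namespace Pool.Agent.H31C

open Pool.Agent.H988R2.Perc Finset Filter Topology

/-- FIN (helper190): from the tasks of `h492c_tasks` -/
def S_FIN : Prop := ∀ a b n : ℕ, Odd a → Odd b → a + b = 2*n → ∃ G T : Polynomial ℂ,
  Pool.Agent.H136R2.Cardy.Data q a b n G T ∧
  (∀ W : ℂ, H492C.GR (on a) W (on b) = G.eval W) ∧ (∀ W : ℂ, H492C.TT (on a) W (on b) = T.eval W)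

/-- helper136 + helper820 -/
def S_136 : Prop := ∀ (a b n : ℕ) (G T : Polynomial ℂ), Odd a → Odd b → a + b = 2*n →
  Pool.Agent.H136R2.Cardy.Data q a b n G T →
  G.eval 1 = ((∑ k ∈ range (a+1), bw (a+b+1) k : ℝ) : ℂ) * T.eval 1

theorem exact_of2 (hF : S_FIN) (hO : S_136) (hC : S_C) (hT : S_T) : S_Exact := by
  intro a b ha hb
  obtain ⟨n, hn⟩ : ∃ n, a + b = 2*n := by
    obtain ⟨i, hi⟩ := ha; obtain ⟨j, hj⟩ := hb; exact ⟨i+j+1, by omega⟩
  obtain ⟨G, T, h, hG, hTT⟩ := hF a b n ha hb hn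
  have h1 := hO a b n G T ha hb hn h
  have h2 := hC a b ha hb
  have hlen : Odd (on a).length := by simpa [on] using ha
  rw [← GR_eq492 (on a) (on b) 1 hlen, hG 1, h1, ← hTT 1, TT_eq492] at h2
  have h3 := mul_right_cancel₀ (hT a b ha hb) h2
  exact_mod_cast h3

end Pool.Agent.H31C
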