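import Mathlib
import Pool.Agent.H988R2.Perc.Defs

/-!
Room CARDY: exact discrete Cardy formula for critical bond percolation on `ℤ²` in the slit strip.
Definitions (ONE-VARIABLE ROUTE).
-/

namespace Pool.Agent.H31C

open Pool.Agent.H988R2.Perc Finset

/-! ## gluing -/

/-- in the join of the lower state `R`, the upper left state `R1` and the upper right state `R2`
(shifted by `a+1`), the faces `a` and `L = a+b+1` are joined -/
def conn3 (a b : ℕ) (R R1 R2 : St) : Prop :=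
  Relation.EqvGen (fun x y => R.rel x y ∨ R1.rel x y ∨
    ∃ x' y', x = a+1+x' ∧ y = a+1+y' ∧ R2.rel x' y') a (a+b+1)

open Classical in
/-- the trilinear gluing -/
noncomputable def tri (a b : ℕ) (f g h : St →₀ ℂ) : ℂ :=
  f.sum fun R x => g.sum fun R1 y => h.sum fun R2 z => x * y * z * (if conn3 a b R R1 R2 then 1 else 0)

/-- inverted parameters -/
noncomputable def inv (l : List ℂ) : List ℂ := l.map (fun x => x⁻¹)

/-- the glued qKZ vectors; the upper vectors have inverted parameters (list entries are the squared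
parameters, as in the library; `G_right`) -/
noncomputable def GR (A : List ℂ) (w : ℂ) (B : List ℂ) : ℂ :=
  tri A.length B.length (Psi (A ++ w :: (B ++ [0]))) (Psi (inv A ++ [0])) (Psi (inv B ++ [0]))

/-- the total mass `G_left + G_right` -/
noncomputable def TT (A : List ℂ) (w : ℂ) (B : List ℂ) : ℂ :=
  Z (A ++ w :: (B ++ [0])) * Z (inv A ++ [0]) * Z (inv B ++ [0])

/-! ## homogeneous point, one variable left -/

/-- the list `1,…,1` -/
noncomputable def on (n : ℕ) : List ℂ := List.replicate n 1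

/-- `W^(3n+1) (W-1/W) (W+1/W-2)^(2n) G(W) W^(-n)·W^n`: the polynomial
`(W²-1) (W-1)^(2(a+b)) p(W)` of degree `≤ 3(a+b)+2 = 6n+2` (`2n = a+b`). -/
noncomputable def Gam (a b : ℕ) (p : Polynomial ℂ) : Polynomial ℂ :=
  (Polynomial.X^2 - 1) * (Polynomial.X - 1)^(2*(a+b)) * p

/-- `f(cW) - W^N f(c/W)` -/
noncomputable def anti (N : ℕ) (c : ℂ) (f : Polynomial ℂ) : Polynomial ℂ :=
  f.comp (Polynomial.C c * Polynomial.X) -
    Polynomial.reflect N (f.comp (Polynomial.C c * Polynomial.X))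

/-- What block A2 delivers (and block ONEVAR uses) about the two polynomials
`p(W) = GR 1^a W 1^b`, `t(W) = TT 1^a W 1^b`. -/
structure OneVar (a b : ℕ) (p t : Polynomial ℂ) : Prop where
  pdeg : p.natDegree ≤ a + b
  tdeg : t.natDegree ≤ a + b
  /-- `w → 0` -/
  bot : p.coeff 0 = - q^2 * t.coeff 0
  /-- `w → ∞` -/
  top : p.coeff (a+b) = - q * t.coeff (a+b)
  ne : t.coeff (a+b) ≠ 0
  /-- left cups: `g(q² u) = g(q²/u)` to order `2a+1` at `u = 1` -/
  left : (Polynomial.X - 1)^(2*a+1) ∣ anti (3*(a+b)+2) (q^2) (Gam a b p)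
  /-- right cups: `g(q v) = g(q/v)` to order `2b+1` at `v = 1` -/
  right : (Polynomial.X - 1)^(2*b+1) ∣ anti (3*(a+b)+2) q (Gam a b p)
  /-- the total is lacunary -/
  lac : ∀ j, j % 3 = 1 → (Gam a b t).coeff j = 0
  /-- and odd -/
  odd : Polynomial.reflect (3*(a+b)+2) (Gam a b t) = - Gam a b t

/-! ## the answer -/

/-- rising factorial -/
noncomputable def ris (s : ℝ) (k : ℕ) : ℝ := ∏ i ∈ range k, (s + i)

/-- the beta-binomial(1/3,1/3) weights `w_k(L) = binom(L,k) (1/3)_k (1/3)_{L-k} / (2/3)_L` -/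
noncomputable def bw (L k : ℕ) : ℝ := (L.choose k : ℝ) * ris (1/3) k * ris (1/3) (L-k) / ris (2/3) L

/-! ## percolation in the slit strip -/

/-- open edges of the slit strip: `0 ≤ u - v ≤ L`, without the edges between the columns `a` and
`a+1` (column = `u - v`) both ends of which satisfy `u + v ≥ 1`. -/
def SlitAdj (a L : ℕ) (ω : Conf) (x y : ℤ × ℤ) : Prop :=
  OpenAdj ω x y ∧ 0 ≤ x.1 - x.2 ∧ x.1 - x.2 ≤ L ∧ 0 ≤ y.1 - y.2 ∧ y.1 - y.2 ≤ L ∧
    ¬ (1 ≤ x.1 + x.2 ∧ 1 ≤ y.1 + y.2 ∧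
      ((x.1 - x.2 ≤ a ∧ (a:ℤ) < y.1 - y.2) ∨ (y.1 - y.2 ≤ a ∧ (a:ℤ) < x.1 - x.2)))

/-- the left bank of the slit is joined, inside the slit strip, to the right side of the strip -/
def Cross (a b : ℕ) : Set Conf :=
  {ω | ∃ x y : ℤ × ℤ, x.1 - x.2 = a ∧ 1 ≤ x.1 + x.2 ∧ y.1 - y.2 = ((a+b+1 : ℕ) : ℤ) ∧
    Relation.ReflTransGen (SlitAdj a (a+b+1) ω) x y}

end Pool.Agent.H31C
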