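import Pool.Agent.H31C.Conf

set_option autoImplicit false

namespace Pool.Agent.H31C.Conf

namespace CM1aux

open Complex Filter Topology Set

/-- each ratio `sin (c s) / (c sin s)` exceeds one -/
lemma sin_ratio {c s : ℝ} (hc0 : 0 < c) (hc1 : c < 1) (hs0 : 0 < s) (hs1 : s < Real.pi) :
    c * Real.sin s < Real.sin (c * s) := by
  have h := strictConcaveOn_sin_Icc.2 (⟨le_rfl, Real.pi_pos.le⟩ : (0:ℝ) ∈ Set.Icc 0 Real.pi)
    (⟨hs0.le, hs1.le⟩ : s ∈ Set.Icc 0 Real.pi) hs0.ne (sub_pos.2 hc1) hc0 (by ring)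
  simpa using h

lemma arg_neg {w : ℂ} (hw : w.im < 0) : w.arg < 0 ∧ -Real.pi < w.arg := by
  refine ⟨Complex.arg_neg_iff.2 hw, Complex.neg_pi_lt_arg w⟩

lemma re_eq (w : ℂ) : w.re = ‖w‖ * Real.cos w.arg := by
  rw [Complex.norm_mul_cos_arg]

lemma im_eq (w : ℂ) : w.im = ‖w‖ * Real.sin w.arg := by
  rw [Complex.norm_mul_sin_arg]

/-- law of sines: if the point lies over the slit then it is above its tip -/
lemma key {x : ℝ} (hx0 : 0 < x) (hx1 : x < 1) {w : ℂ} (hw : w.im < 0)
    (h : x * (-w.arg) + (1 - x) * (-(w - 1).arg) = (1 - x) * Real.pi) :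
    x < ‖w‖ ∧ 1 - x < ‖w - 1‖ := by
  have hw1 : (w - 1).im < 0 := by simpa using hw
  obtain ⟨a1, a2⟩ := arg_neg hw
  obtain ⟨b1, b2⟩ := arg_neg hw1
  set A := -w.arg with hA
  set B := -(w - 1).arg with hB
  set r := ‖w‖ with hr
  set r' := ‖w - 1‖ with hr'
  have hA' : w.arg = -A := by rw [hA]; ring
  have hB' : (w - 1).arg = -B := by rw [hB]; ring
  have hrpos : 0 < r := by
    rw [hr]
    refine norm_pos_iff.2 ?_
    intro h0
    rw [h0] at hw
    simp at hw
  have hA0 : 0 < A := by rw [hA]; linarith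
  have hA1 : A < Real.pi := by rw [hA]; linarith
  have hB0 : 0 < B := by rw [hB]; linarith
  have hB1 : B < Real.pi := by rw [hB]; linarith
  have e1 : w.re = r * Real.cos A := by
    rw [re_eq, hA', Real.cos_neg]
  have e2 : w.im = -(r * Real.sin A) := by
    rw [im_eq, hA', Real.sin_neg]; ring
  have e3 : w.re - 1 = r' * Real.cos B := by
    have := re_eq (w - 1)
    rw [hB', Real.cos_neg] at this
    simpa using this
  have e4 : w.im = -(r' * Real.sin B) := by
    have := im_eq (w - 1)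
    rw [hB', Real.sin_neg] at this
    have h5 : (w - 1).im = w.im := by simp
    rw [h5] at this
    rw [this]; ring
  have c1 : r * Real.cos A - r' * Real.cos B = 1 := by rw [← e1, ← e3]; ring
  have c2 : r * Real.sin A = r' * Real.sin B := by
    have := e2.symm.trans e4
    linarith
  have d1 : r * Real.sin (B - A) = Real.sin B := by
    rw [Real.sin_sub]
    have : r * Real.cos A = 1 + r' * Real.cos B := by linarith
    calc r * (Real.sin B * Real.cos A - Real.cos B * Real.sin A)
        = Real.sin B * (r * Real.cos A) - Real.cos B * (r * Real.sin A) := by ring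
      _ = _ := by rw [this, c2]; ring
  have d2 : r' * Real.sin (B - A) = Real.sin A := by
    rw [Real.sin_sub]
    have : r' * Real.cos B = r * Real.cos A - 1 := by linarith
    calc r' * (Real.sin B * Real.cos A - Real.cos B * Real.sin A)
        = (r' * Real.sin B) * Real.cos A - (r' * Real.cos B) * Real.sin A := by ring
      _ = _ := by rw [← c2, this]; ring
  set s := A + (Real.pi - B) with hs
  have hsA : A = (1 - x) * s := by
    rw [hs]
    linarith
  have hsB : Real.pi - B = x * s := by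
    rw [hs]
    linarith
  have hs0 : 0 < s := by rw [hs]; linarith
  have hsin : Real.sin (B - A) = Real.sin s := by
    rw [hs, ← Real.sin_pi_sub]
    congr 1
    ring
  have hsB2 : Real.sin B = Real.sin (x * s) := by
    rw [← hsB, Real.sin_pi_sub]
  have hsinB : 0 < Real.sin B := Real.sin_pos_of_pos_of_lt_pi hB0 hB1
  rw [hsin] at d1 d2
  have hsins : 0 < Real.sin s := by
    by_contra hneg
    push Not at hneg
    have : r * Real.sin s ≤ 0 := mul_nonpos_of_nonneg_of_nonpos hrpos.le hneg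
    linarith
  have hs1 : s < Real.pi := by
    by_contra hneg
    push Not at hneg
    have h2 : s < 2 * Real.pi := by rw [hs]; linarith
    have := Real.sin_nonpos_of_nonpos_of_neg_pi_le (x := s - 2 * Real.pi) (by linarith)
      (by linarith)
    rw [Real.sin_sub_two_pi] at this
    linarith
  constructor
  · have h1 := sin_ratio hx0 hx1 hs0 hs1
    rw [← hsB2, ← d1] at h1
    exact lt_of_mul_lt_mul_right h1 hsins.le
  · have h1 := sin_ratio (c := 1 - x) (by linarith) (by linarith) hs0 hs1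
    rw [← hsA, ← d2] at h1
    exact lt_of_mul_lt_mul_right h1 hsins.le

/-- derivative of the map -/
noncomputable def dphi (x : ℝ) (w : ℂ) : ℂ := -((I / Real.pi) * (x * w⁻¹ + (1 - x) * (w - 1)⁻¹))

lemma slit1 {w : ℂ} (hw : w.im < 0) : w ∈ slitPlane := Or.inr hw.ne

lemma slit2 {w : ℂ} (hw : w.im < 0) : w - 1 ∈ slitPlane :=
  slit1 (by simpa using hw)

lemma hasDeriv (x : ℝ) {w : ℂ} (hw : w.im < 0) : HasDerivAt (phi x) (dphi x w) w := by
  have h1 := (Complex.hasDerivAt_log (slit1 hw)).const_mul (x : ℂ)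
  have h2 : HasDerivAt (fun w : ℂ => log (w - 1)) (1 / (w - 1)) w :=
    ((hasDerivAt_id' w).sub_const 1).clog (slit2 hw)
  have h3 := h2.const_mul (1 - (x : ℂ))
  have h4 := ((((h1.add h3).sub_const ((x : ℂ) * Real.log x)).sub_const
    ((1 - (x : ℂ)) * Real.log (1 - x))).const_mul (I / (Real.pi : ℂ))).const_sub 1
  refine h4.congr_deriv ?_
  unfold dphi
  ring

lemma re_phi (x : ℝ) (w : ℂ) :
    (phi x w).re = 1 + (x * w.arg + (1 - x) * (w - 1).arg) / Real.pi := by
  have e : phi x w = 1 + ((x * w.arg + (1 - x) * (w - 1).arg : ℝ) : ℂ) / Real.pi -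
      I * (((x * Real.log ‖w‖ + (1 - x) * Real.log ‖w - 1‖ - x * Real.log x -
        (1 - x) * Real.log (1 - x) : ℝ) : ℂ) / Real.pi) := by
    unfold phi Complex.log
    push_cast
    linear_combination (-(x * w.arg + (1 - x) * (w - 1).arg : ℂ) / Real.pi) * Complex.I_sq
  rw [e]
  simp only [← Complex.ofReal_div]
  simp

lemma im_phi (x : ℝ) (w : ℂ) :
    (phi x w).im = -((x * Real.log ‖w‖ + (1 - x) * Real.log ‖w - 1‖ - x * Real.log x -
        (1 - x) * Real.log (1 - x)) / Real.pi) := by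
  have e : phi x w = 1 + ((x * w.arg + (1 - x) * (w - 1).arg : ℝ) : ℂ) / Real.pi -
      I * (((x * Real.log ‖w‖ + (1 - x) * Real.log ‖w - 1‖ - x * Real.log x -
        (1 - x) * Real.log (1 - x) : ℝ) : ℂ) / Real.pi) := by
    unfold phi Complex.log
    push_cast
    linear_combination (-(x * w.arg + (1 - x) * (w - 1).arg : ℂ) / Real.pi) * Complex.I_sq
  rw [e]
  simp only [← Complex.ofReal_div]
  simp

lemma im_inv_pos {w : ℂ} (hw : w.im < 0) : 0 < (w⁻¹).im := by
  rw [Complex.inv_im]
  have h0 : w ≠ 0 := by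
    intro h
    rw [h] at hw
    simp at hw
  exact div_pos (by linarith) (Complex.normSq_pos.2 h0)

lemma re_dphi {x : ℝ} (hx0 : 0 < x) (hx1 : x < 1) {w : ℂ} (hw : w.im < 0) :
    0 < (dphi x w).re := by
  have h1 := im_inv_pos hw
  have h2 : 0 < ((w - 1)⁻¹).im := im_inv_pos (by simpa using hw)
  have e : (dphi x w).re = (x * (w⁻¹).im + (1 - x) * ((w - 1)⁻¹).im) / Real.pi := by
    have e1 : dphi x w = -(I * ((((1 / Real.pi : ℝ)) : ℂ) * (((x : ℝ) : ℂ) * w⁻¹ +
        ((1 - x : ℝ) : ℂ) * (w - 1)⁻¹))) := by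
      unfold dphi
      push_cast
      ring
    rw [e1, Complex.neg_re, Complex.I_mul_re, neg_neg, Complex.im_ofReal_mul, Complex.add_im,
      Complex.im_ofReal_mul, Complex.im_ofReal_mul]
    ring
  rw [e]
  have h3 : 0 < 1 - x := by linarith
  positivity

lemma inj {x : ℝ} (hx0 : 0 < x) (hx1 : x < 1) : InjOn (phi x) Hm := by
  intro w1 h1 w2 h2 heq
  by_contra hne
  set d := w2 - w1 with hd
  have hd0 : d ≠ 0 := sub_ne_zero.2 (Ne.symm hne)
  have him : ∀ t ∈ Icc (0 : ℝ) 1, (w1 + t * d).im < 0 := by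
    intro t ht
    have h1' : w1.im < 0 := h1
    have h2' : w2.im < 0 := h2
    have e : (w1 + t * d).im = (1 - t) * w1.im + t * w2.im := by
      rw [hd]
      simp
      ring
    rw [e]
    rcases eq_or_lt_of_le ht.1 with h | h
    · rw [← h]; simpa using h1'
    · have h5 : 0 ≤ 1 - t := by linarith [ht.2]
      nlinarith
  have hder : ∀ t ∈ Icc (0 : ℝ) 1, HasDerivAt (fun t : ℝ => (phi x (w1 + t * d) / d).re)
      (dphi x (w1 + t * d)).re t := by
    intro t ht
    have h3 := hasDeriv x (him t ht)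
    have h4 : HasDerivAt (fun z : ℂ => w1 + z * d) d (t : ℂ) := by
      simpa using ((hasDerivAt_id (t : ℂ)).mul_const d).const_add w1
    have h5 : HasDerivAt (fun z : ℂ => phi x (w1 + z * d)) (dphi x (w1 + t * d) * d) (t : ℂ) :=
      HasDerivAt.comp (h₂ := phi x) (t : ℂ) h3 h4
    have h6 := h5.div_const d
    rw [mul_div_assoc, div_self hd0, mul_one] at h6
    exact h6.real_of_complex
  have hmono : StrictMonoOn (fun t : ℝ => (phi x (w1 + t * d) / d).re) (Icc 0 1) := by
    refine strictMonoOn_of_deriv_pos (convex_Icc 0 1) ?_ ?_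
    · exact fun t ht => (hder t ht).continuousAt.continuousWithinAt
    · intro t ht
      have ht' := interior_subset ht
      rw [(hder t ht').deriv]
      exact re_dphi hx0 hx1 (him t ht')
  have h7 := hmono (left_mem_Icc.2 zero_le_one) (right_mem_Icc.2 zero_le_one) zero_lt_one
  have e0 : w1 + ((0 : ℝ) : ℂ) * d = w1 := by simp
  have e1 : w1 + ((1 : ℝ) : ℂ) * d = w2 := by rw [hd]; simp
  simp only [e0, e1, heq] at h7
  exact lt_irrefl _ h7

lemma maps {x : ℝ} (hx0 : 0 < x) (hx1 : x < 1) : MapsTo (phi x) Hm (Dx x) := by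
  intro w hw
  have hw' : w.im < 0 := hw
  have hw1 : (w - 1).im < 0 := by simpa using hw'
  obtain ⟨a1, a2⟩ := arg_neg hw'
  obtain ⟨b1, b2⟩ := arg_neg hw1
  have hpi := Real.pi_pos
  have h3 : 0 < 1 - x := by linarith
  refine ⟨?_, ?_, ?_⟩
  · rw [re_phi]
    have : -Real.pi < x * w.arg + (1 - x) * (w - 1).arg := by nlinarith
    have h4 : -1 < (x * w.arg + (1 - x) * (w - 1).arg) / Real.pi := by
      rw [lt_div_iff₀ hpi]
      linarith
    linarith
  · rw [re_phi]
    have : x * w.arg + (1 - x) * (w - 1).arg < 0 := by nlinarith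
    have h4 : (x * w.arg + (1 - x) * (w - 1).arg) / Real.pi < 0 :=
      div_neg_of_neg_of_pos this hpi
    linarith
  · rintro ⟨h5, h6⟩
    rw [re_phi] at h5
    have h7 : x * (-w.arg) + (1 - x) * (-(w - 1).arg) = (1 - x) * Real.pi := by
      field_simp at h5
      linarith
    obtain ⟨k1, k2⟩ := key hx0 hx1 hw' h7
    have l1 := Real.log_lt_log hx0 k1
    have l2 := Real.log_lt_log h3 k2
    rw [im_phi] at h6
    have h8 : 0 < (x * Real.log ‖w‖ + (1 - x) * Real.log ‖w - 1‖ - x * Real.log x -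
        (1 - x) * Real.log (1 - x)) / Real.pi := by
      apply div_pos _ hpi
      nlinarith
    linarith

end CM1aux

theorem CM1_thm : S_CM1 := by
  intro x hx0 hx1
  exact ⟨fun w hw => (CM1aux.hasDeriv x hw).differentiableAt.differentiableWithinAt,
    CM1aux.inj hx0 hx1, CM1aux.maps hx0 hx1⟩

end Pool.Agent.H31C.Conf
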