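import Pool.Agent.H31C.Conf

/-!
Room CARDY, task CM2 (helper132): boundary values of the conformal map onto the slit strip.
-/

namespace Pool.Agent.H31C.Conf

open Complex Filter Topology Set

namespace CM2

/-- `log` has the real value at positive real points -/
lemma logpos {t : ℝ} (ht : 0 < t) : Tendsto log (𝓝[Hm] (t:ℂ)) (𝓝 (Real.log t : ℂ)) := by
  have h : ContinuousAt log (t : ℂ) := continuousAt_clog (ofReal_mem_slitPlane.2 ht)
  have h2 := h.tendsto.mono_left (nhdsWithin_le_nhds (s := Hm))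
  rwa [← ofReal_log ht.le] at h2

/-- from below, `log` tends to `log |t| - i π` at negative real points -/
lemma logneg {t : ℝ} (ht : t < 0) :
    Tendsto log (𝓝[Hm] (t:ℂ)) (𝓝 ((Real.log (-t) : ℂ) - Real.pi * I)) := by
  have h := Complex.tendsto_log_nhdsWithin_im_neg_of_re_neg_of_im_zero (z := (t : ℂ))
    (by simpa using ht) (by simp)
  have e : ‖(t : ℂ)‖ = -t := by rw [Complex.norm_real, Real.norm_eq_abs, abs_of_neg ht]
  rw [e] at h
  exact h

lemma shift (t : ℝ) : Tendsto (fun w : ℂ => w - 1) (𝓝[Hm] (t:ℂ)) (𝓝[Hm] ((t - 1 : ℝ) : ℂ)) := by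
  apply tendsto_nhdsWithin_iff.2
  refine ⟨?_, ?_⟩
  · have : Tendsto (fun w : ℂ => w - 1) (𝓝 (t:ℂ)) (𝓝 ((t:ℂ) - 1)) :=
      (continuous_id.sub continuous_const).tendsto _
    have e : ((t - 1 : ℝ) : ℂ) = (t : ℂ) - 1 := by push_cast; ring
    rw [e]
    exact this.mono_left nhdsWithin_le_nhds
  · filter_upwards [self_mem_nhdsWithin] with w hw
    simp only [Hm, mem_ofPred_eq] at hw ⊢
    simpa using hw

lemma phi_tendsto {x t : ℝ} {l1 l2 : ℂ} (h1 : Tendsto log (𝓝[Hm] (t:ℂ)) (𝓝 l1))
    (h2 : Tendsto log (𝓝[Hm] ((t - 1 : ℝ):ℂ)) (𝓝 l2)) :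
    Tendsto (phi x) (𝓝[Hm] (t:ℂ)) (𝓝 (1 - (I / Real.pi) *
      (x * l1 + (1-x) * l2 - x * Real.log x - (1-x) * Real.log (1-x)))) := by
  have h3 := h2.comp (shift t)
  have h4 := (((h1.const_mul (x : ℂ)).add (h3.const_mul (1 - x : ℂ))).sub
    (tendsto_const_nhds (x := (x * Real.log x : ℂ)))).sub
    (tendsto_const_nhds (x := ((1 - x) * Real.log (1 - x) : ℂ)))
  have h5 := (tendsto_const_nhds (x := (1 : ℂ))).sub (h4.const_mul (I / Real.pi))
  exact h5

/-- Gibbs' inequality -/
lemma gibbs {x t : ℝ} (hx : 0 < x) (hx1 : x < 1) (ht : 0 < t) (ht1 : t < 1) (hne : t ≠ x) :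
    x * Real.log t + (1 - x) * Real.log (1 - t) < x * Real.log x + (1 - x) * Real.log (1 - x) := by
  have h1 : Real.log (t / x) < t / x - 1 := by
    apply Real.log_lt_sub_one_of_pos (by positivity)
    rw [Ne, div_eq_one_iff_eq hx.ne']
    exact hne
  have h2 : Real.log ((1 - t) / (1 - x)) ≤ (1 - t) / (1 - x) - 1 := by
    apply Real.log_le_sub_one_of_pos
    exact div_pos (by linarith) (by linarith)
  rw [Real.log_div ht.ne' hx.ne'] at h1
  rw [Real.log_div (by linarith) (by linarith)] at h2
  have h3 : x * (Real.log t - Real.log x) < t - x := by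
    calc x * (Real.log t - Real.log x) < x * (t / x - 1) := by
          exact mul_lt_mul_of_pos_left h1 hx
      _ = t - x := by field_simp
  have hx' : 0 < 1 - x := by linarith
  have h4 : (1 - x) * (Real.log (1 - t) - Real.log (1 - x)) ≤ (1 - t) - (1 - x) := by
    calc (1 - x) * (Real.log (1 - t) - Real.log (1 - x)) ≤ (1 - x) * ((1 - t) / (1 - x) - 1) := by
          exact mul_le_mul_of_nonneg_left h2 hx'.le
      _ = (1 - t) - (1 - x) := by field_simp
  nlinarith

end CM2

open CM2 in
theorem CM2_thm : S_CM2 := by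
  intro x hx hx1
  have hpi : (Real.pi : ℂ) ≠ 0 := by exact_mod_cast Real.pi_ne_zero
  refine ⟨?_, ?_, ?_, ?_⟩
  · intro t ht
    refine ⟨-(x * Real.log (-t) + (1 - x) * Real.log (-(t - 1)) - x * Real.log x -
      (1 - x) * Real.log (1 - x)) / Real.pi, ?_⟩
    have h := phi_tendsto (x := x) (logneg ht) (logneg (t := t - 1) (by linarith))
    convert h using 2
    push_cast
    field_simp
    ring_nf
    simp only [I_sq]
    ring
  · intro t ht ht1 htx
    refine ⟨-(x * Real.log t + (1 - x) * Real.log (-(t - 1)) - x * Real.log x -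
      (1 - x) * Real.log (1 - x)) / Real.pi, ?_, ?_⟩
    · apply div_pos _ Real.pi_pos
      have e : -(t - 1) = 1 - t := by ring
      rw [e]
      have := gibbs hx hx1 ht ht1 htx
      linarith
    · have h := phi_tendsto (x := x) (logpos ht) (logneg (t := t - 1) (by linarith))
      convert h using 2
      push_cast
      field_simp
      ring_nf
      simp only [I_sq]
      ring
  · have h := phi_tendsto (x := x) (logpos hx) (logneg (t := x - 1) (by linarith))
    convert h using 2
    have e : -(x - 1) = 1 - x := by ring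
    rw [e]
    field_simp
    ring_nf
    simp only [I_sq]
    ring
  · intro t ht
    refine ⟨-(x * Real.log t + (1 - x) * Real.log (t - 1) - x * Real.log x -
      (1 - x) * Real.log (1 - x)) / Real.pi, ?_⟩
    have h := phi_tendsto (x := x) (logpos (t := t) (by linarith)) (logpos (t := t - 1) (by linarith))
    convert h using 2
    push_cast
    field_simp
    ring_nf

end Pool.Agent.H31C.Conf
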