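import Mathlib

/-!
Room CARDY: the conformal map from the lower half-plane onto the slit strip (definitions and the
exact statements of the tasks CM1..CM4).
-/

namespace Pool.Agent.H31C.Conf

open Complex Filter Topology Set

/-- the slit strip: `0 < Re z < 1` without the half-line `Re z = x`, `Im z ≥ 0` -/
def Dx (x : ℝ) : Set ℂ := {z | 0 < z.re ∧ z.re < 1 ∧ ¬ (z.re = x ∧ 0 ≤ z.im)}

/-- the lower half-plane -/
def Hm : Set ℂ := {w | w.im < 0}

/-- the Schwarz-Christoffel map; `0, x, 1, ∞` correspond to the upper left end, the tip of the slit,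
the upper right end and the lower end. -/
noncomputable def phi (x : ℝ) (w : ℂ) : ℂ :=
  1 - (I / Real.pi) * (x * log w + (1-x) * log (w - 1) - x * Real.log x - (1-x) * Real.log (1-x))

/-- CM1: holomorphic, injective (`Re phi' > 0` on the convex set `Hm`), values in the slit strip. -/
def S_CM1 : Prop := ∀ x : ℝ, 0 < x → x < 1 →
  DifferentiableOn ℂ (phi x) Hm ∧ InjOn (phi x) Hm ∧ MapsTo (phi x) Hm (Dx x)

/-- CM2: boundary values. On the real points `t < 0` the map tends to the left side, on `0 < t < x`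
to the upper left bank, on `x < t < 1` to the right bank, on `t > 1` to the right side; at `t = x`
to the tip. -/
def S_CM2 : Prop := ∀ x : ℝ, 0 < x → x < 1 →
  (∀ t : ℝ, t < 0 → ∃ y : ℝ, Tendsto (phi x) (𝓝[Hm] (t:ℂ)) (𝓝 (0 + y * I))) ∧
  (∀ t : ℝ, 0 < t → t < 1 → t ≠ x → ∃ y : ℝ, 0 < y ∧ Tendsto (phi x) (𝓝[Hm] (t:ℂ)) (𝓝 (x + y * I))) ∧
  Tendsto (phi x) (𝓝[Hm] (x:ℂ)) (𝓝 (x:ℂ)) ∧
  (∀ t : ℝ, 1 < t → ∃ y : ℝ, Tendsto (phi x) (𝓝[Hm] (t:ℂ)) (𝓝 (1 + y * I)))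

/-- CM3: behaviour at the three ends. -/
def S_CM3 : Prop := ∀ x : ℝ, 0 < x → x < 1 →
  Tendsto (fun w => (phi x w).im) (𝓝[Hm] (0:ℂ)) atTop ∧
  Tendsto (fun w => (phi x w).im) (𝓝[Hm] (1:ℂ)) atTop ∧
  Tendsto (fun w => (phi x w).im) (Bornology.cobounded ℂ ⊓ 𝓟 Hm) atBot ∧
  (∀ᶠ w in 𝓝[Hm] (0:ℂ), (phi x w).re < x) ∧ (∀ᶠ w in 𝓝[Hm] (1:ℂ), x < (phi x w).re)

/-- CM4: surjectivity, from CM1, CM2, CM3 (the image is open by the open mapping theorem, closed in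
`Dx x` by CM2, CM3, and `Dx x` is preconnected). -/
def S_CM4 : Prop := S_CM1 → S_CM2 → S_CM3 → ∀ x : ℝ, 0 < x → x < 1 → SurjOn (phi x) Hm (Dx x)

end Pool.Agent.H31C.Conf
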