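import Mathlib
import Pool.Agent.H31C.Conf

/-! Room CARDY, task CM3: behaviour of the conformal map at the three ends. -/

namespace Pool.Agent.H31C.Conf

open Complex Filter Topology Set

theorem cm3_im (x : ℝ) (w : ℂ) : (phi x w).im =
    -(x * Real.log ‖w‖ + (1-x) * Real.log ‖w - 1‖ - x * Real.log x
      - (1-x) * Real.log (1-x)) / Real.pi := by
  have h : phi x w = 1 - I * ((1 / Real.pi : ℝ) : ℂ) * (x * log w + ((1-x : ℝ) : ℂ) * log (w - 1)
      - ((x * Real.log x : ℝ) : ℂ) - (((1-x) * Real.log (1-x) : ℝ) : ℂ)) := by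
    rw [phi]; push_cast; ring
  rw [h]
  simp [Complex.log_re, Complex.log_im]
  ring

theorem cm3_re (x : ℝ) (w : ℂ) : (phi x w).re =
    1 + (x * arg w + (1-x) * arg (w - 1)) / Real.pi := by
  have h : phi x w = 1 - I * ((1 / Real.pi : ℝ) : ℂ) * (x * log w + ((1-x : ℝ) : ℂ) * log (w - 1)
      - ((x * Real.log x : ℝ) : ℂ) - (((1-x) * Real.log (1-x) : ℝ) : ℂ)) := by
    rw [phi]; push_cast; ring
  rw [h]
  simp [Complex.log_re, Complex.log_im]
  ring

/-- lower bound for a small angle in the upper half-plane -/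
theorem cm3_arg_ge {z : ℂ} (hz : 0 < z.im) : z.im / ‖z‖ ≤ arg z := by
  have h0 : 0 ≤ arg z := Complex.arg_nonneg_iff.2 hz.le
  have hs := Real.sin_le h0
  rwa [Complex.sin_arg] at hs

/-- upper bound for the angle in the open first quadrant -/
theorem cm3_arg_le {z : ℂ} (hz : 0 < z.im) (hr : 0 < z.re) : arg z ≤ z.im / z.re := by
  have h0 : 0 ≤ arg z := Complex.arg_nonneg_iff.2 hz.le
  have h1 : arg z < Real.pi / 2 := by
    have := (Complex.abs_arg_lt_pi_div_two_iff).2 (Or.inl hr)
    exact (abs_lt.1 this).2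
  have h2 := Real.le_tan h0 h1
  rwa [Complex.tan_arg] at h2

/-- minus the argument of a point of the lower half-plane is the argument of the conjugate -/
theorem cm3_neg_arg {w : ℂ} (hw : w.im < 0) : -arg w = arg (starRingEnd ℂ w) := by
  rw [Complex.arg_conj, if_neg]
  intro h
  have h2 := Complex.arg_neg_iff.2 hw
  have := Real.pi_pos
  linarith

theorem cm3_log_zero : Tendsto (fun w : ℂ => Real.log ‖w‖) (𝓝[Hm] (0:ℂ)) atBot := by
  have h1 : Tendsto (fun w : ℂ => ‖w‖) (𝓝[Hm] (0:ℂ)) (𝓝[>] 0) := by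
    refine tendsto_nhdsWithin_iff.2 ⟨?_, ?_⟩
    · have : Tendsto (fun w : ℂ => ‖w‖) (𝓝 (0:ℂ)) (𝓝 0) := by
        simpa using (continuous_norm (E := ℂ)).tendsto (0:ℂ)
      exact this.mono_left nhdsWithin_le_nhds
    · filter_upwards [self_mem_nhdsWithin] with w hw
      have : w ≠ 0 := by
        rintro rfl
        simp [Hm] at hw
      simpa using this
  exact Real.tendsto_log_nhdsGT_zero.comp h1

theorem cm3_log_one : Tendsto (fun w : ℂ => Real.log ‖w - 1‖) (𝓝[Hm] (1:ℂ)) atBot := by
  have h1 : Tendsto (fun w : ℂ => w - 1) (𝓝[Hm] (1:ℂ)) (𝓝[Hm] (0:ℂ)) := by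
    refine tendsto_nhdsWithin_iff.2 ⟨?_, ?_⟩
    · have : Tendsto (fun w : ℂ => w - 1) (𝓝 (1:ℂ)) (𝓝 0) := by
        have h : Tendsto (fun w : ℂ => w - 1) (𝓝 (1:ℂ)) (𝓝 (1 - 1)) :=
          tendsto_id.sub tendsto_const_nhds
        rwa [sub_self] at h
      exact this.mono_left nhdsWithin_le_nhds
    · filter_upwards [self_mem_nhdsWithin] with w hw
      simpa [Hm] using hw
  exact cm3_log_zero.comp h1

theorem CM3_thm : S_CM3 := by
  intro x hx0 hx1
  have hpi := Real.pi_pos
  refine ⟨?_, ?_, ?_, ?_, ?_⟩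
  · -- near 0
    have hb : Tendsto (fun w : ℂ => Real.log ‖w - 1‖) (𝓝[Hm] (0:ℂ)) (𝓝 0) := by
      have hc : ContinuousAt (fun w : ℂ => Real.log ‖w - 1‖) 0 := by
        refine ContinuousAt.log ?_ (by simp)
        exact (continuous_norm.comp (continuous_id.sub continuous_const)).continuousAt
      have := hc.tendsto
      simp only [zero_sub, norm_neg, norm_one, Real.log_one] at this
      exact this.mono_left nhdsWithin_le_nhds
    have h1 : Tendsto (fun w : ℂ => x * Real.log ‖w‖ + ((1-x) * Real.log ‖w - 1‖ - x * Real.log x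
        - (1-x) * Real.log (1-x))) (𝓝[Hm] (0:ℂ)) atBot := by
      exact (cm3_log_zero.const_mul_atBot hx0).atBot_add
        (((hb.const_mul (1-x)).sub_const (x * Real.log x)).sub_const ((1-x) * Real.log (1-x)))
    have h2 := (tendsto_neg_atBot_atTop.comp h1).atTop_div_const hpi
    refine h2.congr fun w => ?_
    rw [cm3_im]
    simp only [Function.comp]
    ring
  · -- near 1
    have hb : Tendsto (fun w : ℂ => Real.log ‖w‖) (𝓝[Hm] (1:ℂ)) (𝓝 0) := by
      have hc : ContinuousAt (fun w : ℂ => Real.log ‖w‖) 1 := by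
        refine ContinuousAt.log ?_ (by simp)
        exact continuous_norm.continuousAt
      have := hc.tendsto
      simp only [norm_one, Real.log_one] at this
      exact this.mono_left nhdsWithin_le_nhds
    have h1 : Tendsto (fun w : ℂ => (1-x) * Real.log ‖w - 1‖ + (x * Real.log ‖w‖ - x * Real.log x
        - (1-x) * Real.log (1-x))) (𝓝[Hm] (1:ℂ)) atBot := by
      exact (cm3_log_one.const_mul_atBot (by linarith)).atBot_add
        (((hb.const_mul x).sub_const (x * Real.log x)).sub_const ((1-x) * Real.log (1-x)))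
    have h2 := (tendsto_neg_atBot_atTop.comp h1).atTop_div_const hpi
    refine h2.congr fun w => ?_
    rw [cm3_im]
    simp only [Function.comp]
    ring
  · -- infinity
    have hn : Tendsto (fun w : ℂ => ‖w‖) (Bornology.cobounded ℂ ⊓ 𝓟 Hm) atTop :=
      tendsto_norm_cobounded_atTop.mono_left inf_le_left
    have hn1 : Tendsto (fun w : ℂ => ‖w - 1‖) (Bornology.cobounded ℂ ⊓ 𝓟 Hm) atTop := by
      refine tendsto_atTop_mono (fun w => ?_) (tendsto_atTop_add_const_right _ (-1:ℝ) hn)
      have := norm_sub_norm_le w 1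
      simp only [norm_one] at this
      linarith
    have l1 := (Real.tendsto_log_atTop.comp hn).const_mul_atTop hx0
    have l2 := (Real.tendsto_log_atTop.comp hn1).const_mul_atTop (show (0:ℝ) < 1 - x by linarith)
    have h1 := tendsto_atTop_add_const_right _ (- x * Real.log x - (1-x) * Real.log (1-x))
      (l1.atTop_add_atTop l2)
    have h2 := (tendsto_neg_atTop_atBot.comp h1).atBot_div_const hpi
    refine h2.congr fun w => ?_
    rw [cm3_im]
    simp only [Function.comp]
    ring
  · -- real part near 0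
    have hball : ∀ᶠ w in 𝓝[Hm] (0:ℂ), ‖w‖ < x / 2 := by
      have : Metric.ball (0:ℂ) (x/2) ∈ 𝓝[Hm] (0:ℂ) :=
        mem_nhdsWithin_of_mem_nhds (Metric.ball_mem_nhds _ (by linarith))
      filter_upwards [this] with w hw
      simpa using hw
    filter_upwards [hball, self_mem_nhdsWithin] with w hw hHm
    have him : w.im < 0 := hHm
    have hre : w.re ≤ ‖w‖ := (le_abs_self _).trans (Complex.abs_re_le_norm w)
    have hwne : 0 < ‖w‖ := by
      rw [norm_pos_iff]; rintro rfl; simp at him
    -- the angle at 1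
    have e1 : arg (1 - w) = arg (w - 1) + Real.pi := by
      have := Complex.arg_neg_eq_arg_add_pi_of_im_neg (x := w - 1) (by simpa using him)
      rwa [neg_sub] at this
    have i1 : arg (1 - w) ≤ (-w.im) / (1 - w.re) := by
      have := cm3_arg_le (z := 1 - w) (by simpa using him) (by simp; linarith)
      simpa using this
    have i2 : (-w.im) / ‖w‖ ≤ -arg w := by
      rw [cm3_neg_arg him]
      have := cm3_arg_ge (z := starRingEnd ℂ w) (by simpa using him)
      simpa using this
    have key : (1-x) * ((-w.im) / (1 - w.re)) < x * ((-w.im) / ‖w‖) := by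
      have hb : 0 < -w.im := by linarith
      have h1 : 0 < 1 - w.re := by linarith
      rw [← mul_div_assoc, ← mul_div_assoc, div_lt_div_iff₀ h1 hwne]
      have : (1-x) * ‖w‖ < x * (1 - w.re) := by nlinarith
      nlinarith
    rw [cm3_re]
    have h3 : x * arg w + (1-x) * arg (w-1) < -(1-x) * Real.pi := by
      have a1 : (1-x) * arg (1-w) ≤ (1-x) * ((-w.im) / (1 - w.re)) :=
        mul_le_mul_of_nonneg_left i1 (by linarith)
      have a2 : x * ((-w.im) / ‖w‖) ≤ x * (-arg w) := mul_le_mul_of_nonneg_left i2 hx0.le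
      rw [e1] at a1
      nlinarith
    have h4 : (x * arg w + (1-x) * arg (w-1)) / Real.pi < -(1-x) := by
      rw [div_lt_iff₀ hpi]; exact h3
    linarith
  · -- real part near 1
    have hball : ∀ᶠ w in 𝓝[Hm] (1:ℂ), ‖w - 1‖ < (1 - x) / 2 := by
      have : Metric.ball (1:ℂ) ((1-x)/2) ∈ 𝓝[Hm] (1:ℂ) :=
        mem_nhdsWithin_of_mem_nhds (Metric.ball_mem_nhds _ (by linarith))
      filter_upwards [this] with w hw
      simpa [dist_eq_norm] using hw
    filter_upwards [hball, self_mem_nhdsWithin] with w hw hHm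
    have him : w.im < 0 := hHm
    have hre : 1 - w.re ≤ ‖w - 1‖ := by
      have := (neg_le_abs _).trans (Complex.abs_re_le_norm (w-1))
      simp at this
      linarith
    have hwne : 0 < ‖w - 1‖ := by
      rw [norm_pos_iff]; intro h
      have : w = 1 := sub_eq_zero.1 h
      rw [this] at him; simp at him
    have e1 : arg (1 - w) = arg (w - 1) + Real.pi := by
      have := Complex.arg_neg_eq_arg_add_pi_of_im_neg (x := w - 1) (by simpa using him)
      rwa [neg_sub] at this
    have i1 : (-w.im) / ‖w - 1‖ ≤ arg (1 - w) := by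
      have := cm3_arg_ge (z := 1 - w) (by simpa using him)
      rw [norm_sub_rev] at this
      simpa using this
    have hre0 : 0 < w.re := by linarith
    have i2 : -arg w ≤ (-w.im) / w.re := by
      rw [cm3_neg_arg him]
      have := cm3_arg_le (z := starRingEnd ℂ w) (by simpa using him) (by simpa using hre0)
      simpa using this
    have key : x * ((-w.im) / w.re) < (1-x) * ((-w.im) / ‖w - 1‖) := by
      have hb : 0 < -w.im := by linarith
      rw [← mul_div_assoc, ← mul_div_assoc, div_lt_div_iff₀ hre0 hwne]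
      have : x * ‖w - 1‖ < (1 - x) * w.re := by nlinarith
      nlinarith
    rw [cm3_re]
    have h3 : -(1-x) * Real.pi < x * arg w + (1-x) * arg (w-1) := by
      have a1 : (1-x) * ((-w.im) / ‖w - 1‖) ≤ (1-x) * arg (1-w) :=
        mul_le_mul_of_nonneg_left i1 (by linarith)
      have a2 : x * (-arg w) ≤ x * ((-w.im) / w.re) := mul_le_mul_of_nonneg_left i2 hx0.le
      rw [e1] at a1
      nlinarith
    have h4 : -(1-x) < (x * arg w + (1-x) * arg (w-1)) / Real.pi := by
      rw [lt_div_iff₀ hpi]; exact h3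
    linarith

end Pool.Agent.H31C.Conf
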