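import Pool.Agent.H31C.Conf

/-! (CM4) surjectivity of the conformal map onto the slit strip (helper303) -/

set_option autoImplicit false

namespace Pool.Agent.H31C.Conf

open Complex Filter Topology Set

theorem cm4_Hm_open : IsOpen Hm := isOpen_lt Complex.continuous_im continuous_const

theorem cm4_Hm_convex : Convex ℝ Hm := by
  have h : Hm = Complex.imLm ⁻¹' (Set.Iio 0) := rfl
  rw [h]
  exact (convex_Iio (0 : ℝ)).is_linear_preimage Complex.imLm.isLinear

theorem cm4_re_convex (a b : ℝ) : Convex ℝ {z : ℂ | a < z.re ∧ z.re < b} := by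
  have h : {z : ℂ | a < z.re ∧ z.re < b} = Complex.reLm ⁻¹' (Set.Ioo a b) := rfl
  rw [h]
  exact (convex_Ioo a b).is_linear_preimage Complex.reLm.isLinear

theorem cm4_conn (x : ℝ) (h0 : 0 < x) (h1 : x < 1) : IsPreconnected (Dx x) := by
  have hA : Convex ℝ {z : ℂ | 0 < z.re ∧ z.re < x} := cm4_re_convex 0 x
  have hB : Convex ℝ {z : ℂ | x < z.re ∧ z.re < 1} := cm4_re_convex x 1
  have hC : Convex ℝ ({z : ℂ | 0 < z.re ∧ z.re < 1} ∩ Hm) := (cm4_re_convex 0 1).inter cm4_Hm_convex
  have e : Dx x = ({z : ℂ | 0 < z.re ∧ z.re < x} ∪ ({z : ℂ | 0 < z.re ∧ z.re < 1} ∩ Hm)) ∪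
      {z : ℂ | x < z.re ∧ z.re < 1} := by
    ext z
    simp only [Dx, Hm, Set.mem_ofPred_eq, Set.mem_union, Set.mem_inter_iff]
    constructor
    · rintro ⟨a, b, c⟩
      rcases lt_trichotomy z.re x with h | h | h
      · exact Or.inl (Or.inl ⟨a, h⟩)
      · left; right
        refine ⟨⟨a, b⟩, ?_⟩
        by_contra hn
        exact c ⟨h, not_lt.mp hn⟩
      · exact Or.inr ⟨h, b⟩
    · rintro ((⟨a, b⟩ | ⟨⟨a, b⟩, c⟩) | ⟨a, b⟩)
      · exact ⟨a, b.trans h1, fun h => by linarith [h.1]⟩
      · exact ⟨a, b, fun h => by linarith [h.2]⟩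
      · exact ⟨h0.trans a, b, fun h => by linarith [h.1]⟩
  rw [e]
  have hAC : IsPreconnected ({z : ℂ | 0 < z.re ∧ z.re < x} ∪ ({z : ℂ | 0 < z.re ∧ z.re < 1} ∩ Hm)) := by
    refine IsPreconnected.union (⟨x / 2, -1⟩ : ℂ) ?_ ?_ hA.isPreconnected hC.isPreconnected
    · exact ⟨by simp only; linarith, by simp only; linarith⟩
    · refine ⟨⟨by simp only; linarith, by simp only; linarith⟩, ?_⟩
      change (-1 : ℝ) < 0
      norm_num
  refine IsPreconnected.union (⟨(x + 1) / 2, -1⟩ : ℂ) ?_ ?_ hAC hB.isPreconnected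
  · right
    refine ⟨⟨by simp only; linarith, by simp only; linarith⟩, ?_⟩
    change (-1 : ℝ) < 0
    norm_num
  · exact ⟨by simp only; linarith, by simp only; linarith⟩

theorem CM4_thm : S_CM4 := by
  intro hCM1 hCM2 hCM3 x h0 h1
  obtain ⟨hd, hinj, hmaps⟩ := hCM1 x h0 h1
  obtain ⟨b1, b2, b3, b4⟩ := hCM2 x h0 h1
  obtain ⟨c1, c2, c3, -, -⟩ := hCM3 x h0 h1
  have hI : -I ∈ Hm := by simp [Hm]
  have hI2 : -I - I ∈ Hm := by simp [Hm]
  -- the image is open
  have hopen : IsOpen (phi x '' Hm) := by
    have han : AnalyticOnNhd ℂ (phi x) Hm := hd.analyticOnNhd cm4_Hm_open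
    rcases han.is_constant_or_isOpen cm4_Hm_convex.isPreconnected with ⟨w, hw⟩ | h
    · exfalso
      have := hinj hI hI2 ((hw _ hI).trans (hw _ hI2).symm)
      have h2 := congrArg Complex.im this
      simp at h2
      norm_num at h2
    · exact h Hm subset_rfl cm4_Hm_open
  have hcl : closure (phi x '' Hm) ∩ Dx x ⊆ phi x '' Hm := by
    rintro z ⟨hz, hzD⟩
    obtain ⟨hz0, hz1, hzs⟩ := hzD
    -- an ultrafilter
    have hne : (comap (phi x) (𝓝 z) ⊓ 𝓟 Hm).NeBot := by
      rw [mem_closure_iff_nhds] at hz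
      rw [Filter.inf_principal_neBot_iff]
      intro U hU
      obtain ⟨V, hV, hVU⟩ := Filter.mem_comap.mp hU
      obtain ⟨y, hyV, w, hw, rfl⟩ := hz V hV
      exact ⟨w, hVU hyV, hw⟩
    obtain ⟨U, hU⟩ := Ultrafilter.exists_le (comap (phi x) (𝓝 z) ⊓ 𝓟 Hm)
    have hUt : Tendsto (phi x) U (𝓝 z) := tendsto_iff_comap.mpr (hU.trans inf_le_left)
    have hUH : Hm ∈ U := Filter.le_principal_iff.mp (hU.trans inf_le_right)
    have hUim : Tendsto (fun w => (phi x w).im) U (𝓝 z.im) :=
      (Complex.continuous_im.tendsto z).comp hUt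
    by_cases hb : (U : Filter ℂ) ≤ Bornology.cobounded ℂ
    · exfalso
      have h2 := c3.mono_left (le_inf hb (Filter.le_principal_iff.mpr hUH))
      exact not_tendsto_nhds_of_tendsto_atBot h2 _ hUim
    · -- bounded
      obtain ⟨w, hw⟩ : ∃ w, (U : Filter ℂ) ≤ 𝓝 w := by
        rw [Filter.not_le] at hb
        obtain ⟨s, hs, hsU⟩ := hb
        have hs2 : sᶜ ∈ U := (Ultrafilter.compl_mem_iff_notMem).mpr hsU
        have hsb : Bornology.IsBounded sᶜ := Bornology.isBounded_def.mpr (by rwa [compl_compl])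
        obtain ⟨R, hR⟩ := hsb.subset_closedBall 0
        have hK : IsCompact (Metric.closedBall (0 : ℂ) R) := isCompact_closedBall 0 R
        obtain ⟨w, -, hw⟩ := hK.ultrafilter_le_nhds U
          (Filter.le_principal_iff.mpr (Filter.mem_of_superset hs2 hR))
        exact ⟨w, hw⟩
      have hwN : (U : Filter ℂ) ≤ 𝓝[Hm] w := le_inf hw (Filter.le_principal_iff.mpr hUH)
      have hwim : w.im ≤ 0 := by
        have hc : w ∈ closure Hm := by
          rw [mem_closure_iff_nhdsWithin_neBot]
          exact neBot_of_le hwN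
        have : closure Hm ⊆ {z : ℂ | z.im ≤ 0} := by
          refine closure_minimal (fun y (hy : y.im < 0) => le_of_lt hy) ?_
          exact isClosed_le Complex.continuous_im continuous_const
        exact this hc
      rcases hwim.lt_or_eq with hlt | heq
      · refine ⟨w, hlt, ?_⟩
        have hcont : ContinuousAt (phi x) w :=
          (hd.differentiableAt (cm4_Hm_open.mem_nhds hlt)).continuousAt
        exact tendsto_nhds_unique (hcont.tendsto.mono_left hw) hUt
      · exfalso
        obtain ⟨t, rfl⟩ : ∃ t : ℝ, w = (t : ℂ) := ⟨w.re, by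
          apply Complex.ext
          · simp
          · simpa using heq⟩
        rcases lt_trichotomy t 0 with ht | ht | ht
        · obtain ⟨y, hy⟩ := b1 t ht
          have := tendsto_nhds_unique (hy.mono_left hwN) hUt
          rw [← this] at hz0
          simp at hz0
        · subst ht
          have h2 := c1.mono_left (by simpa using hwN)
          exact not_tendsto_nhds_of_tendsto_atTop h2 _ hUim
        · rcases lt_trichotomy t 1 with ht1 | ht1 | ht1
          · by_cases htx : t = x
            · subst htx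
              have := tendsto_nhds_unique (b3.mono_left hwN) hUt
              rw [← this] at hzs
              simp at hzs
            · obtain ⟨y, hy0, hy⟩ := b2 t ht ht1 htx
              have := tendsto_nhds_unique (hy.mono_left hwN) hUt
              rw [← this] at hzs
              apply hzs
              constructor
              · simp
              · simp [hy0.le]
          · subst ht1
            have h2 := c2.mono_left (by simpa using hwN)
            exact not_tendsto_nhds_of_tendsto_atTop h2 _ hUim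
          · obtain ⟨y, hy⟩ := b4 t ht1
            have := tendsto_nhds_unique (hy.mono_left hwN) hUt
            rw [← this] at hz1
            simp at hz1
  have hfin := (cm4_conn x h0 h1).subset_of_closure_inter_subset hopen
    ⟨phi x (-I), hmaps hI, mem_image_of_mem _ hI⟩ hcl
  exact hfin

end Pool.Agent.H31C.Conf
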