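import Pool.Agent.H31C.Conf

/-! CM5: the banks of the slit. -/

namespace Pool.Agent.H31C.Conf

open Complex Filter Topology Set

/-- CM5: the real points `0 < t < x` correspond to the left bank of the slit, the points
`x < t < 1` to the right bank. -/
def S_CM5 : Prop := ∀ x : ℝ, 0 < x → x < 1 →
  (∀ t : ℝ, 0 < t → t < x → ∀ᶠ w in 𝓝[Hm] (t:ℂ), (phi x w).re < x) ∧
  (∀ t : ℝ, x < t → t < 1 → ∀ᶠ w in 𝓝[Hm] (t:ℂ), x < (phi x w).re)

end Pool.Agent.H31C.Conf
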