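import Pool.Agent.H31C.Stubs2
import Pool.Agent.H190R3.Cardy.Fin0
import Pool.Agent.H492C.HB
import Pool.Agent.H492C.C1
import Pool.Agent.H492C.C2h
import Pool.Agent.H492C.G1
import Pool.Agent.H492C.G4
import Pool.Agent.H492C.G6
import Pool.Agent.H492C.W1
import Pool.Agent.H492C.H2
import Pool.Agent.H988C.BT31

/-! Assembly of block A2 (room CARDY). -/

namespace Pool.Agent.H31C

open Pool.Agent.H988R2.Perc hiding X
open Pool.Agent.H492C Polynomial

theorem starA_all : HB.SStarA := fun A B u hA hB hu h0 P hP hg =>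
  starA_of (fun u v B x y w a b c d e => GR_swapA u v B x y w a b c d e)
    (fun A B u a b c d => cupA A B u a b c d) A B u hA hB hu h0 P hP hg

theorem starB_all : HB.SStarB := fun A B v hA hB hv h0 P hP hg =>
  starB_of (fun A u v x y w a b c d e => GR_swapB A u v x y w a b c d e)
    (fun A B v a b c d => cupB A B v a b c d) A B v hA hB hv h0 P hP hg

theorem fin_all : S_FIN := by
  refine Pool.Agent.H190R3.CardyFin.fin_of GR_poly_w TT_poly_w ?_ ?_ cw_eq ?_ ?_ TT_hom
  · intro A B hA hB h0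
    rw [GR_eq492 A B 0 hA, TT_eq492]
    exact Pool.Agent.H988C.GR31_bottom A B hA hB (fun y hy => h0 y (by simp [hy]))
  · intro A B hA hB h0
    obtain ⟨G, hGd, hG⟩ := GR_poly_w A B hA hB
    obtain ⟨T, hTd, hT⟩ := TT_poly_w A B hA hB
    have e1 : (fun w => Pool.Agent.H492C.GR A w B) = fun w => G.eval w := funext hG
    have e2 : (fun w => Pool.Agent.H492C.TT A w B) = fun w => T.eval w := funext hT
    rw [e1, e2, cw_eq _ _ G hGd, cw_eq _ _ T hTd]
    exact Pool.Agent.H988C.GR31_top A B hA hB G T hGd hTd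
      (fun W => by rw [← GR_eq492 A B W hA, hG W]) (fun W => by rw [← TT_eq492 A B W, hT W])
  · intro a b ha hb P hP
    obtain ⟨K, hK, hK'⟩ := hom_A_of starA_all a b ha hb P hP
    exact ⟨K, (pow_dvd_pow _ (by omega)).trans hK, hK'⟩
  · intro a b ha hb P hP
    obtain ⟨K, hK, hK'⟩ := hom_B_of starB_all a b ha hb P hP
    exact ⟨K, (pow_dvd_pow _ (by omega)).trans hK, hK'⟩

end Pool.Agent.H31C
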