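import Pool.Agent.H31C.Stubs2
import Pool.Agent.H136R2.Cardy.One136
import Pool.Agent.H980R3.Slit.All
import Pool.Agent.H757R2.CardySD
import Pool.Agent.H31C.Fin

/-! Room CARDY: the exact discrete Cardy formula in the slit strip, assembled. -/

namespace Pool.Agent.H31C

open Pool.Agent.H988R2.Perc Finset Filter Topology

theorem exact_cardy : S_Exact :=
  exact_of2 fin_all Pool.Agent.H136R2.Cardy.s_136
    Pool.Agent.H980R3.Slit.s_C Pool.Agent.H980R3.Slit.s_T

theorem limit_cardy : S_D := Pool.Agent.H757R2.CardySD.s_D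

end Pool.Agent.H31C

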