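import Pool.Agent.H988R2.Perc.T12

/-!
Room CARDY: the Reidemeister II move on states (helper190).
`Cr s j = -s - s² e_j` with `s² + s + 1 = 0` (`s = q` or `s = q²`; the two are inverse).
-/

namespace Pool.Agent.H31C

open Pool.Agent.H988R2.Perc

/-- the crossing `-s - s² e_j` -/
noncomputable def Cr (s : ℂ) (j : ℕ) (f : St →₀ ℂ) : St →₀ ℂ :=
  (-s) • f - (s^2) • Finsupp.mapDomain (St.act j) f

theorem q2_spec : (q^2)^2 + q^2 + 1 = 0 := by
  have h := q_spec
  linear_combination (q^2 - q + 1) * h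

theorem cap_act_self (j : ℕ) (R : St) : St.cap j (St.act j R) = St.cap j R := by
  rw [St.act_eq j R, St.cap_ins_self]

theorem cap_succ_ins (j : ℕ) (R : St) : St.cap (j+1) (St.ins j R) = R := by
  have h := St.act_succ_ins j R
  rw [St.act_eq] at h
  have h2 := congrArg (St.cap (j+1)) h
  rwa [St.cap_ins_self, St.cap_ins_self] at h2

theorem cap_ins_succ (j : ℕ) (R : St) : St.cap j (St.ins (j+1) R) = R := by
  have h := St.act_ins_succ j R
  rw [St.act_eq] at h
  have h2 := congrArg (St.cap j) h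
  rwa [St.cap_ins_self, St.cap_ins_self] at h2

theorem cap_succ_act (j : ℕ) (R : St) : St.cap (j+1) (St.act j R) = St.cap j R := by
  rw [St.act_eq j R, cap_succ_ins]

theorem cap_act_succ (j : ℕ) (R : St) : St.cap j (St.act (j+1) R) = St.cap (j+1) R := by
  rw [St.act_eq (j+1) R, cap_ins_succ]

theorem mapDomain_sm (φ : St → St) (c : ℂ) (g : St →₀ ℂ) :
    Finsupp.mapDomain φ (c • g) = c • Finsupp.mapDomain φ g := Finsupp.mapDomain_smul c g

theorem mapDomain_sub' (φ : St → St) (g h : St →₀ ℂ) :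
    Finsupp.mapDomain φ (g - h) = Finsupp.mapDomain φ g - Finsupp.mapDomain φ h :=
  map_sub (Finsupp.mapDomain.addMonoidHom φ) g h

theorem Cr_add (s : ℂ) (j : ℕ) (f g : St →₀ ℂ) : Cr s j (f + g) = Cr s j f + Cr s j g := by
  unfold Cr
  rw [Finsupp.mapDomain_add]
  module

theorem Cr_smul (s : ℂ) (j : ℕ) (c : ℂ) (f : St →₀ ℂ) : Cr s j (c • f) = c • Cr s j f := by
  unfold Cr
  rw [mapDomain_sm]
  module

theorem comb_aux {s : ℂ} (hs : s^2 + s + 1 = 0) (F G : St →₀ ℂ) :
    (-s) • ((-s) • F - s^2 • F) - s^2 • ((-s) • G - s^2 • F) = G := by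
  have h3 : s^3 = 1 := by linear_combination (s - 1) * hs
  have h4 : s^4 = s := by linear_combination s * h3
  have : (-s) • ((-s) • F - s^2 • F) - s^2 • ((-s) • G - s^2 • F) =
      (s^2 + s^3 + s^4) • F + s^3 • G := by
    module
  rw [this, h3, h4, one_smul]
  have : s^2 + 1 + s = 0 := by linear_combination hs
  rw [this, zero_smul, zero_add]

/-- Reidemeister II: `cap_{j+1} C_j C_{j+1} = cap_j` -/
theorem cap_Cr_Cr {s : ℂ} (hs : s^2 + s + 1 = 0) (j : ℕ) (f : St →₀ ℂ) :
    Finsupp.mapDomain (St.cap (j+1)) (Cr s j (Cr s (j+1) f)) = Finsupp.mapDomain (St.cap j) f := by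
  unfold Cr
  simp only [mapDomain_sm, mapDomain_sub', ← Finsupp.mapDomain_comp]
  have e1 : St.cap (j+1) ∘ St.act (j+1) = St.cap (j+1) := funext (cap_act_self (j+1))
  have e2 : St.cap (j+1) ∘ St.act j = St.cap j := funext (cap_succ_act j)
  have e3 : St.cap (j+1) ∘ (St.act j ∘ St.act (j+1)) = St.cap (j+1) := by
    funext R
    show St.cap (j+1) (St.act j (St.act (j+1) R)) = _
    rw [cap_succ_act, cap_act_succ]
  rw [e1, e2, e3]
  exact comb_aux hs _ _

/-- mirror image: `cap_j C_{j+1} C_j = cap_{j+1}` -/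
theorem cap_Cr_Cr' {s : ℂ} (hs : s^2 + s + 1 = 0) (j : ℕ) (f : St →₀ ℂ) :
    Finsupp.mapDomain (St.cap j) (Cr s (j+1) (Cr s j f)) = Finsupp.mapDomain (St.cap (j+1)) f := by
  unfold Cr
  simp only [mapDomain_sm, mapDomain_sub', ← Finsupp.mapDomain_comp]
  have e1 : St.cap j ∘ St.act j = St.cap j := funext (cap_act_self j)
  have e2 : St.cap j ∘ St.act (j+1) = St.cap (j+1) := funext (cap_act_succ j)
  have e3 : St.cap j ∘ (St.act (j+1) ∘ St.act j) = St.cap j := by
    funext R
    show St.cap j (St.act (j+1) (St.act j R)) = _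
    rw [cap_act_succ, cap_succ_act]
  rw [e1, e2, e3]
  exact comb_aux hs _ _

/-- `C_{j+1} C_j (ins_{j+1} g) = ins_j g` -/
theorem Cr_Cr_ins {s : ℂ} (hs : s^2 + s + 1 = 0) (j : ℕ) (g : St →₀ ℂ) :
    Cr s (j+1) (Cr s j (Finsupp.mapDomain (St.ins (j+1)) g)) = Finsupp.mapDomain (St.ins j) g := by
  unfold Cr
  simp only [mapDomain_sm, mapDomain_sub', ← Finsupp.mapDomain_comp]
  have e1 : St.act (j+1) ∘ St.ins (j+1) = St.ins (j+1) := funext (St.act_ins_self (j+1))
  have e2 : St.act j ∘ St.ins (j+1) = St.ins j := funext (St.act_ins_succ j)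
  have e3 : St.act (j+1) ∘ (St.act j ∘ St.ins (j+1)) = St.ins (j+1) := by
    funext R
    show St.act (j+1) (St.act j (St.ins (j+1) R)) = _
    rw [St.act_ins_succ, St.act_succ_ins]
  rw [e1, e3, e2]
  have h3 : s^3 = 1 := by linear_combination (s - 1) * hs
  have h4 : s^4 = s := by linear_combination s * h3
  generalize Finsupp.mapDomain (St.ins (j+1)) g = F
  generalize Finsupp.mapDomain (St.ins j) g = G
  have : (-s) • ((-s) • F - s^2 • G) - s^2 • ((-s) • F - s^2 • F) =
      (s^2 + s^3 + s^4) • F + s^3 • G := by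
    module
  rw [this, h3, h4, one_smul]
  have : s^2 + 1 + s = 0 := by linear_combination hs
  rw [this, zero_smul, zero_add]

/-- `C_j C_{j+1} (ins_j g) = ins_{j+1} g` -/
theorem Cr_Cr_ins' {s : ℂ} (hs : s^2 + s + 1 = 0) (j : ℕ) (g : St →₀ ℂ) :
    Cr s j (Cr s (j+1) (Finsupp.mapDomain (St.ins j) g)) = Finsupp.mapDomain (St.ins (j+1)) g := by
  unfold Cr
  simp only [mapDomain_sm, mapDomain_sub', ← Finsupp.mapDomain_comp]
  have e1 : St.act j ∘ St.ins j = St.ins j := funext (St.act_ins_self j)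
  have e2 : St.act (j+1) ∘ St.ins j = St.ins (j+1) := funext (St.act_succ_ins j)
  have e3 : St.act j ∘ (St.act (j+1) ∘ St.ins j) = St.ins j := by
    funext R
    show St.act j (St.act (j+1) (St.ins j R)) = _
    rw [St.act_succ_ins, St.act_ins_succ]
  rw [e1, e3, e2]
  have h3 : s^3 = 1 := by linear_combination (s - 1) * hs
  have h4 : s^4 = s := by linear_combination s * h3
  generalize Finsupp.mapDomain (St.ins (j+1)) g = F
  generalize Finsupp.mapDomain (St.ins j) g = G
  have : (-s) • ((-s) • G - s^2 • F) - s^2 • ((-s) • G - s^2 • G) =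
      (s^2 + s^3 + s^4) • G + s^3 • F := by
    module
  rw [this, h3, h4, one_smul]
  have : s^2 + 1 + s = 0 := by linear_combination hs
  rw [this, zero_smul, zero_add]

/-- the two crossings are inverse -/
theorem Cr_inv {s : ℂ} (hs : s^2 + s + 1 = 0) (j : ℕ) (f : St →₀ ℂ) :
    Cr (s^2) j (Cr s j f) = f := by
  unfold Cr
  simp only [mapDomain_sm, mapDomain_sub', ← Finsupp.mapDomain_comp]
  have e1 : St.act j ∘ St.act j = St.act j := funext (St.act_act j)
  rw [e1]
  have h3 : s^3 = 1 := by linear_combination (s - 1) * hs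
  generalize Finsupp.mapDomain (St.act j) f = F
  have : (-s^2) • ((-s) • f - s^2 • F) - (s^2)^2 • ((-s) • F - s^2 • F) =
      s^3 • f + (s * s^3 + s^2 * s^3 + (s^3)^2) • F := by
    module
  rw [this, h3]
  have : s * 1 + s^2 * 1 + 1^2 = 0 := by linear_combination hs
  rw [this, zero_smul, add_zero, one_smul]

end Pool.Agent.H31C
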